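import Mathlib

open Polynomial

namespace X164.LN

/-- the antiderivative of `p` which vanishes at `0`, `∫_0^X p(t) dt` -/
noncomputable def integ (p : ℚ[X]) : ℚ[X] :=
  p.sum (fun i a => monomial (i + 1) (a / ((i : ℚ) + 1)))

lemma derivative_integ (p : ℚ[X]) : derivative (integ p) = p := by
  unfold integ
  rw [Polynomial.sum, map_sum]
  conv_rhs => rw [p.as_sum_support]
  refine Finset.sum_congr rfl (fun i _ => ?_)
  rw [derivative_monomial]
  congr 1
  push_cast
  field_simp

lemma eval_integ (p : ℚ[X]) : (integ p).eval 0 = 0 := by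
  unfold integ
  rw [Polynomial.sum, eval_finsetSum]
  refine Finset.sum_eq_zero (fun i _ => ?_)
  simp

/-- the polynomials `L_n` -/
noncomputable def L : ℕ → ℚ[X]
  | 0 => - X
  | n + 1 => - L n + (n : ℚ[X]) * integ (L n)

/-- the generating function `F(T, X) = ∑ L_n(X) T^n` -/
noncomputable def F : PowerSeries ℚ[X] := PowerSeries.mk L

/-- the polynomials `L_{n,k}`, `F(T, X)^k = ∑ L_{n,k}(X) T^n` -/
noncomputable def Lk (n k : ℕ) : ℚ[X] := PowerSeries.coeff n (F ^ k)

lemma L_eval_zero (n : ℕ) : (L n).eval 0 = 0 := by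
  induction n with
  | zero => simp [L]
  | succ n ih => simp [L, ih, eval_integ]

lemma derivative_L_succ (n : ℕ) :
    derivative (L (n + 1)) = - derivative (L n) + (n : ℚ[X]) * L n := by
  rw [L, derivative_add, derivative_neg, derivative_mul, derivative_integ, derivative_natCast]
  ring

/-- coefficientwise derivative -/
noncomputable def DX (f : PowerSeries ℚ[X]) : PowerSeries ℚ[X] :=
  PowerSeries.mk (fun n => derivative (PowerSeries.coeff n f))

lemma coeff_DX (f : PowerSeries ℚ[X]) (n : ℕ) :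
    PowerSeries.coeff n (DX f) = derivative (PowerSeries.coeff n f) := by
  rw [DX, PowerSeries.coeff_mk]

lemma DX_add (f g : PowerSeries ℚ[X]) : DX (f + g) = DX f + DX g := by
  ext1 n
  simp only [coeff_DX, map_add]

lemma DX_mul (f g : PowerSeries ℚ[X]) : DX (f * g) = DX f * g + f * DX g := by
  ext1 n
  rw [coeff_DX, map_add, PowerSeries.coeff_mul, PowerSeries.coeff_mul, PowerSeries.coeff_mul,
    map_sum, ← Finset.sum_add_distrib]
  refine Finset.sum_congr rfl (fun x _ => ?_)
  rw [derivative_mul, coeff_DX, coeff_DX]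

lemma DX_one : DX 1 = 0 := by
  ext1 n
  rw [coeff_DX, PowerSeries.coeff_one]
  split_ifs <;> simp

lemma DX_X : DX PowerSeries.X = 0 := by
  ext1 n
  rw [coeff_DX, PowerSeries.coeff_X]
  split_ifs <;> simp

/-- derivative in `T` -/
noncomputable def DT (f : PowerSeries ℚ[X]) : PowerSeries ℚ[X] := PowerSeries.derivative ℚ[X] f

lemma coeff_DT (f : PowerSeries ℚ[X]) (n : ℕ) :
    PowerSeries.coeff n (DT f) = PowerSeries.coeff (n + 1) f * ((n : ℚ[X]) + 1) := by
  rw [DT, PowerSeries.coeff_derivative]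

lemma DT_add (f g : PowerSeries ℚ[X]) : DT (f + g) = DT f + DT g := by
  simp only [DT, map_add]

lemma DT_mul (f g : PowerSeries ℚ[X]) : DT (f * g) = DT f * g + f * DT g := by
  simp only [DT, Derivation.leibniz, smul_eq_mul]
  ring

lemma DT_one : DT 1 = 0 := by
  rw [DT, PowerSeries.derivative_one]

lemma DT_X : DT PowerSeries.X = 1 := by
  rw [DT, PowerSeries.derivative_X]

lemma DX_DT (f : PowerSeries ℚ[X]) : DX (DT f) = DT (DX f) := by
  ext1 n
  rw [coeff_DX, coeff_DT, coeff_DT, coeff_DX]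
  have : ((n : ℚ[X]) + 1) = ((n + 1 : ℕ) : ℚ[X]) := by push_cast; ring
  rw [this, derivative_mul, derivative_natCast]
  ring


/-- (E1) -/
lemma E1 : (1 + (PowerSeries.X : PowerSeries ℚ[X])) * DX F + 1 = (PowerSeries.X : PowerSeries ℚ[X]) ^ 2 * DT F := by
  ext1 n
  rcases n with _ | n
  · have h : (PowerSeries.X : PowerSeries ℚ[X]) ^ 2 * DT F = (PowerSeries.X : PowerSeries ℚ[X]) * ((PowerSeries.X : PowerSeries ℚ[X]) * DT F) := by ring
    rw [h, PowerSeries.coeff_zero_X_mul, map_add, add_mul, one_mul, map_add,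
      PowerSeries.coeff_zero_X_mul, coeff_DX]
    simp [F, L]
  · have h1 : PowerSeries.coeff (n + 1) ((1 + (PowerSeries.X : PowerSeries ℚ[X])) * DX F + 1)
        = derivative (L (n + 1)) + derivative (L n) := by
      rw [map_add, add_mul, one_mul, map_add, PowerSeries.coeff_succ_X_mul, coeff_DX, coeff_DX,
        PowerSeries.coeff_one, F, PowerSeries.coeff_mk, PowerSeries.coeff_mk]
      simp
    have h : (PowerSeries.X : PowerSeries ℚ[X]) ^ 2 * DT F = (PowerSeries.X : PowerSeries ℚ[X]) * ((PowerSeries.X : PowerSeries ℚ[X]) * DT F) := by ring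
    rw [h1, derivative_L_succ, h, PowerSeries.coeff_succ_X_mul]
    rcases n with _ | n
    · rw [PowerSeries.coeff_zero_X_mul]
      simp
    · rw [PowerSeries.coeff_succ_X_mul, coeff_DT, F, PowerSeries.coeff_mk]
      push_cast
      ring

lemma E1' : DX F + (1 + (PowerSeries.X : PowerSeries ℚ[X])) * DX (DT F) = 2 * (PowerSeries.X : PowerSeries ℚ[X]) * DT F + (PowerSeries.X : PowerSeries ℚ[X]) ^ 2 * DT (DT F) := by
  have h := congrArg DT E1
  rw [DT_add, DT_mul, DT_add, DT_one, DT_X, pow_two, DT_mul, DT_mul, DT_X] at h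
  rw [DX_DT]
  linear_combination h

/-- the function which we show to vanish -/
noncomputable def G : PowerSeries ℚ[X] := DT F * (1 + (PowerSeries.X : PowerSeries ℚ[X]) + (PowerSeries.X : PowerSeries ℚ[X]) * F) + F

lemma G_eq : (1 + (PowerSeries.X : PowerSeries ℚ[X])) ^ 2 * DX G = (1 + (PowerSeries.X : PowerSeries ℚ[X])) * ((PowerSeries.X : PowerSeries ℚ[X]) ^ 2 * DT G) + (PowerSeries.X : PowerSeries ℚ[X]) * G := by
  have e1 := E1
  have e2 := E1'
  have hDXG : DX G = DX (DT F) * (1 + (PowerSeries.X : PowerSeries ℚ[X]) + (PowerSeries.X : PowerSeries ℚ[X]) * F) + DT F * ((PowerSeries.X : PowerSeries ℚ[X]) * DX F) + DX F := by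
    rw [G, DX_add, DX_mul, DX_add, DX_add, DX_one, DX_X, DX_mul, DX_X]
    ring
  have hDTG : DT G = DT (DT F) * (1 + (PowerSeries.X : PowerSeries ℚ[X]) + (PowerSeries.X : PowerSeries ℚ[X]) * F) + DT F * (1 + (F + (PowerSeries.X : PowerSeries ℚ[X]) * DT F)) + DT F := by
    rw [G, DT_add, DT_mul, DT_add, DT_add, DT_one, DT_X, DT_mul, DT_X]
    ring
  rw [hDXG, hDTG, G]
  linear_combination (1 + (PowerSeries.X : PowerSeries ℚ[X])) * (1 + (PowerSeries.X : PowerSeries ℚ[X]) + (PowerSeries.X : PowerSeries ℚ[X]) * F) * e2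
    + ((1 + (PowerSeries.X : PowerSeries ℚ[X])) * (PowerSeries.X : PowerSeries ℚ[X]) * DT F + (1 + (PowerSeries.X : PowerSeries ℚ[X])) - (1 + (PowerSeries.X : PowerSeries ℚ[X]) + (PowerSeries.X : PowerSeries ℚ[X]) * F)) * e1

end X164.LN
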