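import Mathlib

open Polynomial

namespace X164.LN

/-- `p` is nonzero and all its complex roots are real and nonnegative -/
def NN (p : ℚ[X]) : Prop := p ≠ 0 ∧ ∀ z : ℂ, aeval z p = 0 → z.im = 0 ∧ 0 ≤ z.re

lemma msum_pos (s : Multiset ℂ) (f : ℂ → ℝ) (h : ∀ r ∈ s, 0 < f r) (hs : s ≠ 0) :
    0 < (s.map f).sum := by
  obtain ⟨a, ha⟩ := Multiset.exists_mem_of_ne_zero hs
  obtain ⟨t, rfl⟩ := Multiset.exists_cons_of_mem ha
  rw [Multiset.map_cons, Multiset.sum_cons]
  have h1 : 0 ≤ (t.map f).sum := by
    apply Multiset.sum_nonneg
    intro x hx
    obtain ⟨r, hr, rfl⟩ := Multiset.mem_map.mp hx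
    exact (h r (Multiset.mem_cons_of_mem hr)).le
  have h2 := h _ (Multiset.mem_cons_self _ t)
  linarith

lemma msum_im (s : Multiset ℂ) (f : ℂ → ℂ) :
    (s.map f).sum.im = (s.map (fun r => (f r).im)).sum := by
  induction s using Multiset.induction_on with
  | empty => simp
  | cons a s ih => simp [ih]

lemma msum_re (s : Multiset ℂ) (f : ℂ → ℂ) :
    (s.map f).sum.re = (s.map (fun r => (f r).re)).sum := by
  induction s using Multiset.induction_on with
  | empty => simp
  | cons a s ih => simp [ih]

lemma NN_step (p : ℚ[X]) (hp : NN p) (c : ℚ) (hc : 0 < c) : NN (derivative p - C c * p) := by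
  obtain ⟨h0, hr⟩ := hp
  constructor
  · intro h
    have h1 : derivative p = C c * p := sub_eq_zero.mp h
    have h2 := congrArg degree h1
    rw [degree_C_mul hc.ne'] at h2
    exact absurd h2 (degree_derivative_lt h0).ne
  · intro z hz
    by_cases hpz : aeval z p = 0
    · exact hr z hpz
    · -- logarithmic derivative
      set q : ℂ[X] := p.map (algebraMap ℚ ℂ) with hq
      have hq0 : q.eval z ≠ 0 := by
        rw [hq, eval_map_algebraMap]; exact hpz
      have hsp := IsAlgClosed.splits q
      have hder : q.derivative.eval z = c * q.eval z := by
        have : aeval z (derivative p) - (c : ℂ) * aeval z p = 0 := by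
          simpa using hz
        rw [hq, derivative_map, eval_map_algebraMap, eval_map_algebraMap]
        linear_combination this
      have hlog : (q.roots.map (fun r => 1 / (z - r))).sum = c := by
        have h1 := hsp.eval_derivative_div_eval_of_ne_zero hq0
        rw [← h1, hder]
        field_simp
      have hroot : ∀ r ∈ q.roots, r.im = 0 ∧ 0 ≤ r.re := by
        intro r hrr
        apply hr
        have := (mem_roots'.mp hrr).2
        rw [IsRoot, hq, eval_map_algebraMap] at this
        exact this
      have hne : ∀ r ∈ q.roots, z ≠ r := by
        rintro r hrr rfl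
        exact hq0 (mem_roots'.mp hrr).2
      have hcR : (0 : ℝ) < c := by exact_mod_cast hc
      have hrne : q.roots ≠ 0 := by
        intro h
        rw [h] at hlog
        simp only [Multiset.map_zero, Multiset.sum_zero] at hlog
        have : (c : ℂ) = 0 := hlog.symm
        have h3 : (c : ℂ).re = 0 := by rw [this]; simp
        rw [Complex.ratCast_re] at h3
        exact hcR.ne' h3
      have hns : ∀ r ∈ q.roots, 0 < Complex.normSq (z - r) := by
        intro r hrr
        exact Complex.normSq_pos.mpr (sub_ne_zero.mpr (hne r hrr))
      have him := congrArg Complex.im hlog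
      have hre := congrArg Complex.re hlog
      rw [msum_im, Complex.ratCast_im] at him
      rw [msum_re, Complex.ratCast_re] at hre
      have hzim : z.im = 0 := by
        by_contra hzi
        have h4 : 0 < (q.roots.map (fun r => (-z.im) * (1 / (z - r)).im)).sum := by
          apply msum_pos _ _ _ hrne
          intro r hrr
          have h5 : (1 / (z - r)).im = - z.im / Complex.normSq (z - r) := by
            rw [one_div, Complex.inv_im, Complex.sub_im, (hroot r hrr).1, sub_zero]
          rw [h5]
          have h6 := hns r hrr
          have h7 : 0 < z.im * z.im := mul_self_pos.mpr hzi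
          have h8 : -z.im * (-z.im / Complex.normSq (z - r))
              = (z.im * z.im) / Complex.normSq (z - r) := by ring
          rw [h8]
          positivity
        rw [Multiset.sum_map_mul_left, him, mul_zero] at h4
        exact lt_irrefl _ h4
      refine ⟨hzim, ?_⟩
      by_contra hzr
      push Not at hzr
      have h4 : 0 < (q.roots.map (fun r => (-1 : ℝ) * (1 / (z - r)).re)).sum := by
        apply msum_pos _ _ _ hrne
        intro r hrr
        have h5 : (1 / (z - r)).re = (z.re - r.re) / Complex.normSq (z - r) := by
          rw [one_div, Complex.inv_re, Complex.sub_re]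
        rw [h5]
        have h6 := hns r hrr
        have h7 : 0 < r.re - z.re := by linarith [(hroot r hrr).2]
        have h8 : (-1 : ℝ) * ((z.re - r.re) / Complex.normSq (z - r))
            = (r.re - z.re) / Complex.normSq (z - r) := by ring
        rw [h8]
        positivity
      rw [Multiset.sum_map_mul_left, hre] at h4
      linarith

end X164.LN
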