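import Pool.Agent.X164.LN.Alg
import Pool.Agent.X164.LN.RRt

open Polynomial

namespace X164.LN


lemma DX_T_pow (n : ℕ) : DX ((PowerSeries.X : PowerSeries ℚ[X]) ^ n) = 0 := by
  induction n with
  | zero => rw [pow_zero, DX_one]
  | succ n ih => rw [pow_succ, DX_mul, ih, DX_X]; ring

lemma T_DT_T_pow (n : ℕ) : (PowerSeries.X : PowerSeries ℚ[X]) * DT ((PowerSeries.X : PowerSeries ℚ[X]) ^ n) = (n : PowerSeries ℚ[X]) * (PowerSeries.X : PowerSeries ℚ[X]) ^ n := by
  induction n with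
  | zero => rw [pow_zero, DT_one]; simp
  | succ n ih =>
    rw [pow_succ, DT_mul, DT_X, mul_add]
    push_cast
    linear_combination (PowerSeries.X : PowerSeries ℚ[X]) * ih

lemma derivative_coeff_G (n : ℕ) (h : ∀ m < n, PowerSeries.coeff m G = 0) :
    derivative (PowerSeries.coeff n G) = 0 := by
  obtain ⟨H, hH⟩ := PowerSeries.X_pow_dvd_iff.mpr h
  have hn : PowerSeries.coeff n G = PowerSeries.coeff 0 H := by
    have := PowerSeries.coeff_X_pow_mul H n 0
    rw [zero_add] at this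
    rw [hH, this]
  have e := G_eq
  have h1 : DX G = (PowerSeries.X : PowerSeries ℚ[X]) ^ n * DX H := by
    rw [hH, DX_mul, DX_T_pow]; ring
  have h2 : (PowerSeries.X : PowerSeries ℚ[X]) * DT G = (PowerSeries.X : PowerSeries ℚ[X]) ^ n * ((n : PowerSeries ℚ[X]) * H + (PowerSeries.X : PowerSeries ℚ[X]) * DT H) := by
    rw [hH, DT_mul, mul_add]
    linear_combination H * T_DT_T_pow n
  have h3 : (PowerSeries.X : PowerSeries ℚ[X]) ^ n * ((1 + (PowerSeries.X : PowerSeries ℚ[X])) ^ 2 * DX H)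
      = (PowerSeries.X : PowerSeries ℚ[X]) ^ n * ((PowerSeries.X : PowerSeries ℚ[X]) * ((1 + (PowerSeries.X : PowerSeries ℚ[X])) * ((n : PowerSeries ℚ[X]) * H + (PowerSeries.X : PowerSeries ℚ[X]) * DT H) + H)) := by
    rw [h1] at e
    have h4 : (PowerSeries.X : PowerSeries ℚ[X]) ^ 2 * DT G = (PowerSeries.X : PowerSeries ℚ[X]) * ((PowerSeries.X : PowerSeries ℚ[X]) * DT G) := by ring
    rw [h4, h2] at e
    linear_combination e + (PowerSeries.X : PowerSeries ℚ[X]) * hH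
  have h5 := mul_left_cancel₀ (pow_ne_zero n PowerSeries.X_ne_zero) h3
  have h6 := congrArg PowerSeries.constantCoeff h5
  simp only [map_mul, map_pow, map_add, map_one, PowerSeries.constantCoeff_X, add_zero, one_pow,
    one_mul, zero_mul] at h6
  rw [hn, ← coeff_DX, PowerSeries.coeff_zero_eq_constantCoeff_apply]
  exact h6

lemma eval_coeff_F (n : ℕ) : (PowerSeries.coeff n F).eval 0 = 0 := by
  rw [F, PowerSeries.coeff_mk]; exact L_eval_zero n

lemma eval_coeff_G (n : ℕ) : (PowerSeries.coeff n G).eval 0 = 0 := by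
  have h1 : ∀ (f : PowerSeries ℚ[X]) (g : PowerSeries ℚ[X]) (m : ℕ),
      (∀ i, (PowerSeries.coeff i f).eval 0 = 0) → (PowerSeries.coeff m (f * g)).eval 0 = 0 := by
    intro f g m hf
    rw [PowerSeries.coeff_mul, eval_finsetSum]
    refine Finset.sum_eq_zero (fun x _ => ?_)
    rw [eval_mul, hf, zero_mul]
  have h2 : ∀ i, (PowerSeries.coeff i (DT F)).eval 0 = 0 := by
    intro i
    rw [coeff_DT, eval_mul, eval_coeff_F, zero_mul]
  rw [G, map_add, eval_add, h1 _ _ _ h2, eval_coeff_F, add_zero]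

lemma G_zero : G = 0 := by
  ext1 n
  rw [map_zero]
  induction n using Nat.strong_induction_on with
  | _ n ih =>
    have h1 := derivative_coeff_G n ih
    have h2 := Polynomial.derivative_eq_zero.mp h1
    rw [eq_C_of_natDegree_eq_zero h2] 
    have h3 := eval_coeff_G n
    rw [eq_C_of_natDegree_eq_zero h2, eval_C] at h3
    rw [h3, C_0]

/-- (E2) -/
lemma E2 : (PowerSeries.X : PowerSeries ℚ[X]) * F * DT F + (1 + (PowerSeries.X : PowerSeries ℚ[X])) * DT F + F = 0 := by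
  have := G_zero
  rw [G] at this
  linear_combination this

lemma DT_pow (j : ℕ) : DT (F ^ (j + 1)) = ((j : PowerSeries ℚ[X]) + 1) * F ^ j * DT F := by
  induction j with
  | zero => simp
  | succ j ih =>
    rw [pow_succ, DT_mul, ih]
    push_cast
    ring

lemma E3 (j : ℕ) : ((j : PowerSeries ℚ[X]) + 1) * ((PowerSeries.X : PowerSeries ℚ[X]) * DT (F ^ (j + 2)))
    + ((j : PowerSeries ℚ[X]) + 2) * (DT (F ^ (j + 1)) + (PowerSeries.X : PowerSeries ℚ[X]) * DT (F ^ (j + 1))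
      + ((j : PowerSeries ℚ[X]) + 1) * F ^ (j + 1)) = 0 := by
  have h2 : DT (F ^ (j + 2)) = ((j : PowerSeries ℚ[X]) + 2) * F ^ (j + 1) * DT F := by
    have := DT_pow (j + 1)
    rw [show j + 2 = j + 1 + 1 from rfl, this]
    push_cast
    ring
  rw [h2, DT_pow]
  linear_combination (((j : PowerSeries ℚ[X]) + 1) * ((j : PowerSeries ℚ[X]) + 2) * F ^ j) * E2

lemma coeff_T_DT (f : PowerSeries ℚ[X]) (n : ℕ) :
    PowerSeries.coeff n ((PowerSeries.X : PowerSeries ℚ[X]) * DT f) = (n : ℚ[X]) * PowerSeries.coeff n f := by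
  rcases n with _ | n
  · rw [PowerSeries.coeff_zero_X_mul]; simp
  · rw [PowerSeries.coeff_succ_X_mul, coeff_DT]
    push_cast
    ring

lemma coeff_natCast_mul (a n : ℕ) (f : PowerSeries ℚ[X]) :
    PowerSeries.coeff n ((a : PowerSeries ℚ[X]) * f) = (a : ℚ[X]) * PowerSeries.coeff n f := by
  rw [← nsmul_eq_mul, map_nsmul, nsmul_eq_mul]

lemma R2 (n j : ℕ) : ((j : ℚ[X]) + 1) * ((n : ℚ[X]) * Lk n (j + 2))
    + ((j : ℚ[X]) + 2) * (((n : ℚ[X]) + 1) * Lk (n + 1) (j + 1) + (n : ℚ[X]) * Lk n (j + 1)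
      + ((j : ℚ[X]) + 1) * Lk n (j + 1)) = 0 := by
  have h := congrArg (PowerSeries.coeff n) (E3 j)
  have c1 : ((j : PowerSeries ℚ[X]) + 1) = ((j + 1 : ℕ) : PowerSeries ℚ[X]) := by push_cast; ring
  have c2 : ((j : PowerSeries ℚ[X]) + 2) = ((j + 2 : ℕ) : PowerSeries ℚ[X]) := by push_cast; ring
  rw [c1, c2, map_add, coeff_natCast_mul, coeff_natCast_mul, map_add, map_add, coeff_T_DT,
    coeff_T_DT, coeff_DT, coeff_natCast_mul, map_zero] at h
  rw [Lk, Lk, Lk]
  push_cast at h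
  linear_combination h

lemma Lk_zero (k : ℕ) : Lk 0 k = (-X) ^ k := by
  rw [Lk, PowerSeries.coeff_zero_eq_constantCoeff_apply, map_pow,
    ← PowerSeries.coeff_zero_eq_constantCoeff_apply, F, PowerSeries.coeff_mk, L]

/-- the operator `(D - 1)(D - 2)⋯(D - n)`, where `D = d/dX` -/
noncomputable def opP : ℕ → (ℚ[X] →ₗ[ℚ] ℚ[X])
  | 0 => LinearMap.id
  | n + 1 => opP n ∘ₗ (Polynomial.derivative - ((n : ℚ) + 1) • LinearMap.id)

lemma opP_succ (n : ℕ) (p : ℚ[X]) :
    opP (n + 1) p = opP n (derivative p - C ((n : ℚ) + 1) * p) := by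
  rw [opP, LinearMap.comp_apply, LinearMap.sub_apply, LinearMap.smul_apply, LinearMap.id_apply,
    smul_eq_C_mul]

lemma opP_C_mul (n : ℕ) (a : ℚ) (p : ℚ[X]) : opP n (C a * p) = C a * opP n p := by
  rw [← smul_eq_C_mul, map_smul, smul_eq_C_mul]

theorem Lk_formula (n j : ℕ) : Lk (n + 1) (j + 1)
    = C (((j : ℚ) + 1) / ((n + 1).factorial : ℚ) * (-1) ^ (n + j)) * opP n (X ^ (n + j + 1)) := by
  induction n generalizing j with
  | zero =>
    have h := R2 0 j
    rw [Lk_zero, Lk_zero] at h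
    have hj : ((j : ℚ[X]) + 2) ≠ 0 := by
      have : ((j + 2 : ℕ) : ℚ[X]) ≠ 0 := Nat.cast_ne_zero.mpr (by omega)
      push_cast at this
      exact this
    have h2 : ((j : ℚ[X]) + 2) * (Lk (0 + 1) (j + 1) - (((j : ℚ[X]) + 1) * (-1) ^ j * X ^ (j + 1)))
        = 0 := by
      rw [neg_pow (X : ℚ[X]) (j + 1), pow_succ (-1 : ℚ[X]) j] at h
      push_cast at h
      linear_combination h
    have h3 := (mul_eq_zero.mp h2).resolve_left hj
    rw [sub_eq_zero.mp h3, opP, LinearMap.id_apply]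
    simp
  | succ n ih =>
    have h := R2 (n + 1) j
    rw [ih j, ih (j + 1)] at h
    have e1 : opP (n + 1) (X ^ (n + 1 + j + 1))
        = C ((n : ℚ) + j + 2) * opP n (X ^ (n + j + 1))
          - C ((n : ℚ) + 1) * opP n (X ^ (n + (j + 1) + 1)) := by
      rw [opP_succ, map_sub, opP_C_mul, derivative_X_pow, opP_C_mul]
      have : n + 1 + j + 1 - 1 = n + j + 1 := by omega
      rw [this]
      have h3 : n + (j + 1) + 1 = n + 1 + j + 1 := by omega
      rw [h3]
      push_cast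
      congr 3
      ring
    rw [e1]
    set A := opP n (X ^ (n + j + 1))
    set B := opP n (X ^ (n + (j + 1) + 1))
    set a1 : ℚ := ((j : ℚ) + 1) / ((n + 1).factorial : ℚ) * (-1) ^ (n + j) with ha1
    set b : ℚ := (((j + 1 : ℕ) : ℚ) + 1) / ((n + 1).factorial : ℚ) * (-1) ^ (n + (j + 1)) with hb
    set a2 : ℚ := ((j : ℚ) + 1) / ((n + 1 + 1).factorial : ℚ) * (-1) ^ (n + 1 + j) with ha2
    have hf : ((n + 1).factorial : ℚ) ≠ 0 := by positivity
    have hf2 : ((n + 1 + 1).factorial : ℚ) = ((n : ℚ) + 2) * ((n + 1).factorial : ℚ) := by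
      rw [Nat.factorial_succ (n + 1)]; push_cast; ring
    have hn2 : ((n : ℚ) + 2) ≠ 0 := by positivity
    have hj2 : ((j : ℚ) + 2) ≠ 0 := by positivity
    have q1 : ((n : ℚ) + 2) * a2 = - a1 := by
      rw [ha1, ha2, hf2]
      field_simp
      ring
    have q2 : ((j : ℚ) + 2) * (((n : ℚ) + 2) * a2) = ((j : ℚ) + 1) * b := by
      rw [ha2, hb, hf2]
      push_cast
      field_simp
      ring
    have p1 := congrArg (C : ℚ → ℚ[X]) q1
    have p2 := congrArg (C : ℚ → ℚ[X]) q2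
    simp only [C_mul, C_add, C_neg, C_1, map_natCast, map_ofNat] at p1 p2
    have hnz : ((j : ℚ[X]) + 2) * ((n : ℚ[X]) + 2) ≠ 0 := by
      have : (((j + 2) * (n + 2) : ℕ) : ℚ[X]) ≠ 0 := Nat.cast_ne_zero.mpr (by positivity)
      push_cast at this
      exact this
    apply mul_left_cancel₀ hnz
    simp only [C_add, C_1, map_natCast, map_ofNat]
    push_cast at h
    linear_combination h - ((n : ℚ[X]) + j + 2) * ((j : ℚ[X]) + 2) * A * p1
      + ((n : ℚ[X]) + 1) * B * p2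

lemma NN_opP (n : ℕ) (p : ℚ[X]) (hp : NN p) : NN (opP n p) := by
  induction n generalizing p with
  | zero => rw [opP, LinearMap.id_apply]; exact hp
  | succ n ih =>
    rw [opP_succ]
    exact ih _ (NN_step p hp _ (by positivity))

lemma NN_X_pow (m : ℕ) : NN (X ^ m : ℚ[X]) := by
  refine ⟨pow_ne_zero _ X_ne_zero, fun z hz => ?_⟩
  rw [map_pow, aeval_X] at hz
  have := eq_zero_of_pow_eq_zero hz
  simp [this]

theorem NN_Lk (n k : ℕ) (hn : 1 ≤ n) (hk : 1 ≤ k) : NN (Lk n k) := by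
  obtain ⟨n, rfl⟩ := Nat.exists_eq_add_of_le' hn
  obtain ⟨j, rfl⟩ := Nat.exists_eq_add_of_le' hk
  rw [Lk_formula]
  obtain ⟨h0, hr⟩ := NN_opP n _ (NN_X_pow (n + j + 1))
  have hc : ((j : ℚ) + 1) / ((n + 1).factorial : ℚ) * (-1) ^ (n + j) ≠ 0 := by
    have h1 : (0 : ℚ) < ((j : ℚ) + 1) / ((n + 1).factorial : ℚ) := by positivity
    exact mul_ne_zero h1.ne' (pow_ne_zero _ (by norm_num))
  refine ⟨mul_ne_zero (C_ne_zero.mpr hc) h0, fun z hz => ?_⟩
  rw [map_mul, aeval_C] at hz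
  rcases mul_eq_zero.mp hz with h | h
  · exact absurd ((map_eq_zero _).mp h) hc
  · exact hr z h

end X164.LN
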